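import Pool.Agent.Lib_MP_dd3545_lc.Model

/-!
MP_dd3545_lc (perfectly null versus universally null sets): `UN ≠ PN` is consistent with ZFC.

There is a countable ω-model of ZFC containing a set `A` of subsets of `ω` which, in the model,
is perfectly null but not universally null. No hypothesis is assumed.
-/

namespace Pool.Agent.Results.MP_dd3545_lc.ModelOfZFC

open Pool.Agent.LibDD Pool.Agent.Forcing

theorem result : ∃ (M : Type 1) (E : M → M → Prop), Countable M ∧ ModelsZFC E ∧ OmegaModel E ∧
    ∃ A : M, IsSetOfReals E A ∧ PerfectlyNullIn E A ∧ ¬ UniversallyNullIn E A :=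
  exists_model

end Pool.Agent.Results.MP_dd3545_lc.ModelOfZFC
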