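import Pool.Agent.Lib_MP_dd3545_lc.Main
import Pool.Agent.Lib_MP_dd3545_lc.Sierpinski

/-!
MP_dd3545_lc (perfectly null versus universally null sets).

Under the continuum hypothesis there is a perfectly null set which is not universally null;
so `UN ≠ PN` holds in every model of ZFC + CH.
-/

namespace Pool.Agent.Results.MP_dd3545_lc.SeparationCH

open MeasureTheory Pool.Agent.LibDD
open scoped Cardinal

theorem result (CH : (Cardinal.continuum : Cardinal.{0}) = Cardinal.aleph 1) :
    ∃ A : Set (ℕ → Bool), PerfectlyNull A ∧ ¬ UniversallyNull A := by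
  obtain ⟨A, hA0, hA⟩ := exists_sierpinski CH bern (IsProbabilityMeasure.ne_zero bern)
    (fun x => measure_singleton x)
  exact ⟨A, perfectlyNull_of_sierpinski hA,
    fun hU => hA0 (hU bern inferInstance (fun x => measure_singleton x))⟩

end Pool.Agent.Results.MP_dd3545_lc.SeparationCH
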