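import Pool.Agent.Lib_MP_dd3545_lc.Main

/-!
MP_dd3545_lc (perfectly null versus universally null sets).

An outright theorem (no extra axiom): there is a diffused Borel probability measure `ν` on
`2^ω` that is mutually singular with the canonical measure `μ_P` of EVERY perfect set `P`;
consequently every uncountable set all of whose `ν`-null parts are countable is perfectly null
but not universally null.
-/

namespace Pool.Agent.Results.MP_dd3545_lc.SingularMeasure

open MeasureTheory Pool.Agent.LibDD

theorem result : ∃ ν : Measure (ℕ → Bool), IsProbabilityMeasure ν ∧ (∀ x, ν {x} = 0) ∧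
    (∀ P : Set (ℕ → Bool), Perfect P → P.Nonempty → canonicalMeasure P ⟂ₘ ν) ∧
    (∀ A : Set (ℕ → Bool), ¬ A.Countable → (∀ N, ν N = 0 → (A ∩ N).Countable) →
      PerfectlyNull A ∧ ¬ UniversallyNull A) := by
  refine ⟨bern, inferInstance, fun x => measure_singleton x,
    fun P hP hne => canonicalMeasure_mutuallySingular hP hne, ?_⟩
  intro A hA hS
  refine ⟨perfectlyNull_of_sierpinski hS, fun hU => hA ?_⟩
  have h0 : bern A = 0 := hU bern inferInstance (fun x => measure_singleton x)
  have := hS A h0
  rwa [Set.inter_self] at this

end Pool.Agent.Results.MP_dd3545_lc.SingularMeasure
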